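import Mathlib

/-! Lomonosov's theorem in commuting form (Hilden's proof): an operator commuting with a nonzero
compact operator has a nontrivial closed invariant subspace. -/

open Filter Topology Metric

namespace Pool.Agent.P.MP_f981b0_an.Lom

variable {E : Type*} [NormedAddCommGroup E] [NormedSpace ℂ E]

/-- An eigenvector spans a nontrivial closed invariant subspace. -/
theorem exists_invariant_of_eigenvector (T : E →L[ℂ] E) (hE : 1 < Module.rank ℂ E) {x : E}
    (hx : x ≠ 0) {μ : ℂ} (h : T x = μ • x) :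
    ∃ M : Submodule ℂ E, IsClosed (M : Set E) ∧ M ≠ ⊥ ∧ M ≠ ⊤ ∧ ∀ y ∈ M, T y ∈ M := by
  refine ⟨Submodule.span ℂ {x}, Submodule.closed_of_finiteDimensional _, ?_, ?_, ?_⟩
  · simpa using hx
  · intro htop
    have h1 : Module.rank ℂ (Submodule.span ℂ {x}) ≤ 1 := by
      simpa using rank_span_le (R := ℂ) ({x} : Set E)
    rw [htop, rank_top] at h1
    exact absurd hE (not_lt.mpr h1)
  · intro y hy
    obtain ⟨c, rfl⟩ := Submodule.mem_span_singleton.mp hy
    rw [map_smul, h, smul_smul]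
    exact Submodule.smul_mem _ _ (Submodule.mem_span_singleton_self x)

/-- A nonzero finite-dimensional invariant subspace contains an eigenvector. -/
theorem exists_eigenvector_of_finiteDimensional (T : E →L[ℂ] E) (V : Submodule ℂ E)
    [FiniteDimensional ℂ V] (hV : V ≠ ⊥) (hT : ∀ y ∈ V, T y ∈ V) :
    ∃ x ∈ V, x ≠ 0 ∧ ∃ μ : ℂ, T x = μ • x := by
  have : Nontrivial V := Submodule.nontrivial_iff_ne_bot.mpr hV
  obtain ⟨μ, hμ⟩ := Module.End.exists_eigenvalue ((T : E →ₗ[ℂ] E).restrict hT)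
  obtain ⟨x, hx⟩ := hμ.exists_hasEigenvector
  refine ⟨x, x.2, fun h => hx.2 (Subtype.ext h), μ, ?_⟩
  have := congrArg Subtype.val hx.apply_eq_smul
  simpa using this

theorem tendsto_pow_of_quasinilpotent [CompleteSpace E] (K : E →L[ℂ] E)
    (hK : ∀ μ ∈ spectrum ℂ K, μ = 0) (c : ℝ) (hc : 0 ≤ c) :
    Tendsto (fun m : ℕ => c ^ m * ‖K ^ m‖) atTop (𝓝 0) := by
  have hr : spectralRadius ℂ K = 0 := by
    unfold spectralRadius
    simp only [ENNReal.iSup_eq_zero]
    intro μ hμ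
    simp [hK μ hμ]
  have ht := spectrum.pow_norm_pow_one_div_tendsto_nhds_spectralRadius K
  rw [hr] at ht
  set δ : ℝ := 1 / (2 * (c + 1)) with hδ
  have hδ0 : 0 < δ := by positivity
  have hev : ∀ᶠ m : ℕ in atTop, ENNReal.ofReal (‖K ^ m‖ ^ (1 / m : ℝ)) < ENNReal.ofReal δ :=
    ht.eventually (gt_mem_nhds (by simpa using hδ0))
  have hlim : Tendsto (fun m : ℕ => (1 / 2 : ℝ) ^ m) atTop (𝓝 0) :=
    tendsto_pow_atTop_nhds_zero_of_lt_one (by norm_num) (by norm_num)
  refine squeeze_zero' (Eventually.of_forall fun m => by positivity) ?_ hlim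
  filter_upwards [hev, eventually_gt_atTop 0] with m hm hm0
  rw [ENNReal.ofReal_lt_ofReal_iff hδ0] at hm
  have h1 : ‖K ^ m‖ ≤ δ ^ m := by
    have h2 : (‖K ^ m‖ ^ (1 / m : ℝ)) ^ m ≤ δ ^ m :=
      pow_le_pow_left₀ (by positivity) hm.le m
    rwa [one_div, Real.rpow_inv_natCast_pow (norm_nonneg _) hm0.ne'] at h2
  calc c ^ m * ‖K ^ m‖ ≤ c ^ m * δ ^ m := by gcongr
    _ = (c * δ) ^ m := by rw [mul_pow]
    _ ≤ (1 / 2) ^ m := by
      apply pow_le_pow_left₀ (by positivity)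
      rw [hδ, mul_one_div, div_le_div_iff₀ (by positivity) (by norm_num)]
      nlinarith

/-- Finite-dimensional spaces of dimension at least two. -/
theorem exists_invariant_of_finiteDimensional [FiniteDimensional ℂ E] (T : E →L[ℂ] E)
    (hE : 1 < Module.rank ℂ E) :
    ∃ M : Submodule ℂ E, IsClosed (M : Set E) ∧ M ≠ ⊥ ∧ M ≠ ⊤ ∧ ∀ y ∈ M, T y ∈ M := by
  have hnt : Nontrivial E := rank_pos_iff_nontrivial.mp (lt_trans zero_lt_one hE)
  obtain ⟨x, -, hx, μ, hμ⟩ := exists_eigenvector_of_finiteDimensional T ⊤ top_ne_bot (by simp)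
  exact exists_invariant_of_eigenvector T hE hx hμ

/-- A compact operator that is not a scalar has a nontrivial closed hyperinvariant subspace
(Lomonosov; proof of Hilden). -/
theorem exists_hyperinvariant_of_compact [CompleteSpace E] (K : E →L[ℂ] E)
    (hK : IsCompactOperator K) (hs : ∀ c : ℂ, K ≠ c • 1) :
    ∃ M : Submodule ℂ E, IsClosed (M : Set E) ∧ M ≠ ⊥ ∧ M ≠ ⊤ ∧
      ∀ A : E →L[ℂ] E, A * K = K * A → ∀ x ∈ M, A x ∈ M := by
  by_contra hno
  have htr : ∀ M : Submodule ℂ E, IsClosed (M : Set E) → M ≠ ⊥ →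
      (∀ A : E →L[ℂ] E, A * K = K * A → ∀ x ∈ M, A x ∈ M) → M = ⊤ := by
    intro M h1 h2 h3
    by_contra h4
    exact hno ⟨M, h1, h2, h4, h3⟩
  have hK0 : K ≠ 0 := by simpa using hs 0
  -- `K` is quasinilpotent
  have hq : ∀ μ ∈ spectrum ℂ K, μ = 0 := by
    intro μ hμ
    by_contra hμ0
    obtain ⟨x, hx⟩ := ((hK.hasEigenvalue_iff_mem_spectrum hμ0).mpr hμ).exists_hasEigenvector
    have hx1 : K x = μ • x := hx.apply_eq_smul
    have htop := htr (K - μ • (1 : E →L[ℂ] E)).ker (ContinuousLinearMap.isClosed_ker _)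
      (by
        intro h
        have : x ∈ (K - μ • (1 : E →L[ℂ] E)).ker := by simp [hx1]
        rw [h] at this
        exact hx.2 (by simpa using this))
      (by
        intro A hA y hy
        have hy' : K y = μ • y := by simpa [sub_eq_zero] using hy
        have hAK : K (A y) = A (K y) := by
          simpa using (congrArg (fun D : E →L[ℂ] E => D y) hA).symm
        simp [hAK, hy'])
    refine hs μ (ContinuousLinearMap.ext fun y => ?_)
    have : y ∈ (K - μ • (1 : E →L[ℂ] E)).ker := by rw [htop]; trivial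
    simpa [sub_eq_zero] using this
  -- a point `x₀` with `‖K x₀‖ > ‖K‖`
  obtain ⟨x₀, hx₀⟩ : ∃ x₀ : E, ‖K‖ + 1 ≤ ‖K x₀‖ := by
    obtain ⟨z, hz⟩ : ∃ z, K z ≠ 0 := by
      by_contra h
      push Not at h
      exact hK0 (ContinuousLinearMap.ext h)
    have hz' : 0 < ‖K z‖ := norm_pos_iff.mpr hz
    refine ⟨(((‖K‖ + 1) / ‖K z‖ : ℝ) : ℂ) • z, ?_⟩
    rw [map_smul, norm_smul, Complex.norm_real, Real.norm_of_nonneg (by positivity),
      div_mul_cancel₀ _ hz'.ne']
  have hlow : ∀ x ∈ ball x₀ 1, 1 ≤ ‖K x‖ := by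
    intro x hx
    have h1 : ‖K x₀ - K x‖ ≤ ‖K‖ := by
      rw [← map_sub]
      refine (K.le_opNorm _).trans ?_
      have : ‖x₀ - x‖ ≤ 1 := by
        rw [← dist_eq_norm, dist_comm]; exact (mem_ball.mp hx).le
      exact mul_le_of_le_one_right (norm_nonneg _) this
    have h2 := norm_sub_norm_le (K x₀) (K x)
    linarith
  have hC : IsCompact (closure (K '' ball x₀ 1)) :=
    hK.isCompact_closure_image_of_bounded (f := (K : E →ₗ[ℂ] E)) isBounded_ball
  have hC0 : ∀ y ∈ closure (K '' ball x₀ 1), y ≠ 0 := by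
    intro y hy h0
    have : closure (K '' ball x₀ 1) ⊆ {y | 1 ≤ ‖y‖} := by
      apply closure_minimal
      · rintro _ ⟨x, hx, rfl⟩
        exact hlow x hx
      · exact isClosed_le continuous_const continuous_norm
    have h := this hy
    simp only [h0, Set.mem_ofPred_eq, norm_zero] at h
    linarith
  -- the commutant of `K` acts with dense orbits
  have hcov : ∀ y : E, y ≠ 0 → ∃ A : E →L[ℂ] E, A * K = K * A ∧ A y ∈ ball x₀ 1 := by
    intro y hy
    let V : Submodule ℂ E :=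
      { carrier := {z | ∃ A : E →L[ℂ] E, A * K = K * A ∧ A y = z}
        add_mem' := by
          rintro _ _ ⟨A, hA, rfl⟩ ⟨B, hB, rfl⟩
          exact ⟨A + B, by rw [add_mul, mul_add, hA, hB], rfl⟩
        zero_mem' := ⟨0, by simp, rfl⟩
        smul_mem' := by
          rintro c _ ⟨A, hA, rfl⟩
          exact ⟨c • A, by rw [smul_mul_assoc, mul_smul_comm, hA], rfl⟩ }
    have hVT : ∀ T : E →L[ℂ] E, T * K = K * T → ∀ z ∈ V, T z ∈ V := by
      rintro T hTK _ ⟨A, hA, rfl⟩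
      exact ⟨T * A, by rw [mul_assoc, hA, ← mul_assoc, hTK, mul_assoc], rfl⟩
    have htop := htr V.topologicalClosure V.isClosed_topologicalClosure
      (by
        intro h
        have : y ∈ V.topologicalClosure := V.le_topologicalClosure ⟨1, by simp, rfl⟩
        rw [h] at this
        exact hy (by simpa using this))
      (by
        intro T hTK z hz
        exact map_mem_closure (s := (V : Set E)) (t := (V : Set E)) T.continuous hz (hVT T hTK))
    have hx : x₀ ∈ closure (V : Set E) := by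
      have : x₀ ∈ V.topologicalClosure := by rw [htop]; trivial
      exact this
    obtain ⟨z, ⟨A, hA, rfl⟩, hz⟩ := Metric.mem_closure_iff.mp hx 1 one_pos
    exact ⟨A, hA, by rwa [mem_ball, dist_comm]⟩
  obtain ⟨s, hs⟩ := hC.elim_finite_subcover
    (fun A : {A : E →L[ℂ] E // A * K = K * A} => A.1 ⁻¹' ball x₀ 1)
    (fun A => isOpen_ball.preimage A.1.continuous)
    (by
      intro y hy
      obtain ⟨A, hA, h⟩ := hcov y (hC0 y hy)
      exact Set.mem_iUnion.mpr ⟨⟨A, hA⟩, h⟩)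
  set c : ℝ := ∑ A ∈ s, ‖A.1‖ with hc
  have hc0 : 0 ≤ c := Finset.sum_nonneg fun _ _ => norm_nonneg _
  have hind : ∀ m : ℕ, ∃ A : E →L[ℂ] E, A * K = K * A ∧ ‖A ((K ^ m) x₀)‖ ≤ c ^ m * ‖(K ^ m) x₀‖ ∧
      (∀ z, ‖A z‖ ≤ c ^ m * ‖z‖) ∧ A ((K ^ m) x₀) ∈ ball x₀ 1 := by
    intro m
    induction m with
    | zero => exact ⟨1, by simp, by simp, by simp, by simp⟩
    | succ m ih =>
      obtain ⟨A, hA, -, hA1, hA2⟩ := ih
      have hmem : K (A ((K ^ m) x₀)) ∈ closure (K '' ball x₀ 1) := subset_closure ⟨_, hA2, rfl⟩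
      obtain ⟨B, hB, hB1⟩ := Set.mem_iUnion₂.mp (hs hmem)
      have hBc : ‖B.1‖ ≤ c :=
        Finset.single_le_sum (f := fun A : {A : E →L[ℂ] E // A * K = K * A} => ‖A.1‖)
          (fun _ _ => norm_nonneg _) hB
      have hz : ∀ z, ‖(B.1 * A) z‖ ≤ c ^ (m + 1) * ‖z‖ := by
        intro z
        calc ‖B.1 (A z)‖ ≤ ‖B.1‖ * ‖A z‖ := B.1.le_opNorm _
          _ ≤ c * (c ^ m * ‖z‖) := by gcongr; exact hA1 z
          _ = c ^ (m + 1) * ‖z‖ := by ring
      refine ⟨B.1 * A, by rw [mul_assoc, hA, ← mul_assoc, B.2, mul_assoc], hz _, hz, ?_⟩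
      have h1 : A ((K ^ (m + 1)) x₀) = K (A ((K ^ m) x₀)) := by
        rw [pow_succ']
        exact congrArg (fun D : E →L[ℂ] E => D ((K ^ m) x₀)) hA
      show B.1 (A ((K ^ (m + 1)) x₀)) ∈ ball x₀ 1
      rw [h1]
      exact hB1
  -- the points of the ball stay away from zero
  have hball : ∀ x ∈ ball x₀ 1, 1 ≤ ‖K‖ * ‖x‖ := fun x hx => (hlow x hx).trans (K.le_opNorm x)
  have hlim := ((tendsto_pow_of_quasinilpotent K hq c hc0).mul_const ‖x₀‖).const_mul ‖K‖
  simp only [zero_mul, mul_zero] at hlim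
  obtain ⟨m, hm⟩ := (hlim.eventually (gt_mem_nhds one_pos)).exists
  obtain ⟨A, -, h1, -, h2⟩ := hind m
  have h3 := hball _ h2
  have h4 : ‖A ((K ^ m) x₀)‖ ≤ c ^ m * ‖K ^ m‖ * ‖x₀‖ := by
    refine h1.trans ?_
    rw [mul_assoc]
    gcongr
    exact (K ^ m).le_opNorm _
  have h5 : ‖K‖ * ‖A ((K ^ m) x₀)‖ ≤ ‖K‖ * (c ^ m * ‖K ^ m‖ * ‖x₀‖) := by gcongr
  linarith

/-- Lomonosov's theorem, commuting form. -/
theorem exists_invariant_of_commute_compact [CompleteSpace E] (T K : E →L[ℂ] E)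
    (hE : 1 < Module.rank ℂ E) (hK : IsCompactOperator K) (hK0 : K ≠ 0) (hTK : T * K = K * T) :
    ∃ M : Submodule ℂ E, IsClosed (M : Set E) ∧ M ≠ ⊥ ∧ M ≠ ⊤ ∧ ∀ y ∈ M, T y ∈ M := by
  by_cases hs : ∀ c : ℂ, K ≠ c • 1
  · obtain ⟨M, h1, h2, h3, h4⟩ := exists_hyperinvariant_of_compact K hK hs
    exact ⟨M, h1, h2, h3, h4 T hTK⟩
  · push Not at hs
    obtain ⟨c, hc⟩ := hs
    have hc0 : c ≠ 0 := by
      rintro rfl
      exact hK0 (by simpa using hc)
    have hKe : (K : E → E) = c • (id : E → E) := by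
      funext y
      simp [hc]
    rw [hKe, IsCompactOperator.smul_iff₀ hc0, isCompactOperator_id_iff_finiteDimensional (𝕜 := ℂ)]
      at hK
    exact exists_invariant_of_finiteDimensional T hE

end Pool.Agent.P.MP_f981b0_an.Lom
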